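import Mathlib

/-!
# MP_87e037_al : nonzero lowering maps on polynomials of bounded degree

We prove: for every field `K`, every `d ≥ 1` and all pairwise distinct `θ₀, …, θ_d` such that
`(θ_{i-2} - θ_{i+1}) (θ_{i-1} - θ_i)⁻¹` does not depend on `i` (`2 ≤ i ≤ d-1`), there is a nonzero
lowering map.
-/

open Polynomial

namespace Pool.Agent.Results.MP_87e037_al.LoweringMap

variable {K : Type*} [Field K]

/-- `τ_i = ∏_{h<i} (λ - θ_h)`. -/
noncomputable def tau (θ : ℕ → K) (i : ℕ) : K[X] := ∏ h ∈ Finset.range i, (X - C (θ h))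

/-- `ρ_i = ∏_{h<i} (λ - θ_{d-h})`. -/
noncomputable def rho (d : ℕ) (θ : ℕ → K) (i : ℕ) : K[X] :=
  ∏ h ∈ Finset.range i, (X - C (θ (d - h)))

/-- `Ψ` is a lowering map on the space `V` of polynomials of degree at most `d`. -/
def IsLowering (d : ℕ) (θ : ℕ → K) (Ψ : degreeLE K (d : WithBot ℕ) →ₗ[K] degreeLE K (d : WithBot ℕ)) :
    Prop :=
  (∀ p : degreeLE K (d : WithBot ℕ), (p : K[X]) = tau θ 0 → Ψ p = 0) ∧
  (∀ p : degreeLE K (d : WithBot ℕ), (p : K[X]) = rho d θ 0 → Ψ p = 0) ∧
  ∀ i : ℕ, 1 ≤ i → i ≤ d →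
    (∀ p : degreeLE K (d : WithBot ℕ), (p : K[X]) = tau θ i →
      ((Ψ p : degreeLE K (d : WithBot ℕ)) : K[X]) ∈ Submodule.span K {tau θ (i - 1)}) ∧
    (∀ p : degreeLE K (d : WithBot ℕ), (p : K[X]) = rho d θ i →
      ((Ψ p : degreeLE K (d : WithBot ℕ)) : K[X]) ∈ Submodule.span K {rho d θ (i - 1)})

/-- the coefficients of `ρ_i` in the basis `τ_j` -/
def cc (d : ℕ) (θ : ℕ → K) : ℕ → ℕ → K
  | 0, 0 => 1
  | 0, _ + 1 => 0
  | i + 1, 0 => (θ 0 - θ (d - i)) * cc d θ i 0
  | i + 1, j + 1 => cc d θ i j + (θ (j + 1) - θ (d - i)) * cc d θ i (j + 1)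

lemma cc_eq_zero (d : ℕ) (θ : ℕ → K) : ∀ i j : ℕ, i < j → cc d θ i j = 0
  | 0, 0, h => absurd h (lt_irrefl _)
  | 0, j + 1, _ => rfl
  | i + 1, 0, h => absurd h (by omega)
  | i + 1, j + 1, h => by
      rw [cc, cc_eq_zero d θ i j (by omega), cc_eq_zero d θ i (j + 1) (by omega)]; ring

lemma cc_self (d : ℕ) (θ : ℕ → K) : ∀ i : ℕ, cc d θ i i = 1
  | 0 => rfl
  | i + 1 => by
      rw [cc, cc_self d θ i, cc_eq_zero d θ i (i + 1) (by omega)]; ring

lemma X_mul_tau (θ : ℕ → K) (j : ℕ) : X * tau θ j = tau θ (j + 1) + C (θ j) * tau θ j := by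
  rw [tau, tau, Finset.prod_range_succ]; ring

lemma rho_eq_sum (d : ℕ) (θ : ℕ → K) (i : ℕ) :
    rho d θ i = ∑ j ∈ Finset.range (i + 1), C (cc d θ i j) * tau θ j := by
  induction i with
  | zero => simp [rho, tau, cc]
  | succ i ih =>
      have h1 : rho d θ (i + 1) = (X - C (θ (d - i))) * rho d θ i := by
        rw [rho, rho, Finset.prod_range_succ]; ring
      rw [h1, ih, Finset.mul_sum]
      have h2 : ∀ j ∈ Finset.range (i + 1), (X - C (θ (d - i))) * (C (cc d θ i j) * tau θ j)
          = C (cc d θ i j) * tau θ (j + 1) + C ((θ j - θ (d - i)) * cc d θ i j) * tau θ j := by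
        intro j _
        have := X_mul_tau θ j
        rw [C_mul, C_sub]
        linear_combination (C (cc d θ i j)) * this
      rw [Finset.sum_congr rfl h2, Finset.sum_add_distrib,
        Finset.sum_range_succ' (fun j => C (cc d θ (i + 1) j) * tau θ j) (i + 1)]
      rw [Finset.sum_range_succ' (fun j => C ((θ j - θ (d - i)) * cc d θ i j) * tau θ j) i]
      have h3 : ∀ j ∈ Finset.range (i + 1), C (cc d θ (i + 1) (j + 1)) * tau θ (j + 1)
          = C (cc d θ i j) * tau θ (j + 1)
            + C ((θ (j + 1) - θ (d - i)) * cc d θ i (j + 1)) * tau θ (j + 1) := by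
        intro j _
        rw [cc, C_add]; ring
      rw [Finset.sum_congr rfl h3, Finset.sum_add_distrib]
      have h4 : ∑ j ∈ Finset.range (i + 1),
            C ((θ (j + 1) - θ (d - i)) * cc d θ i (j + 1)) * tau θ (j + 1)
          = ∑ j ∈ Finset.range i,
            C ((θ (j + 1) - θ (d - i)) * cc d θ i (j + 1)) * tau θ (j + 1) := by
        rw [Finset.sum_range_succ, cc_eq_zero d θ i (i + 1) (by omega)]
        simp
      rw [h4]
      have h5 : cc d θ (i + 1) 0 = (θ 0 - θ (d - i)) * cc d θ i 0 := by rw [cc]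
      rw [h5]
      ring

/-- partial sums `s_i = ∑_{h<i} (θ_h - θ_{d-h})` -/
def ss (d : ℕ) (θ : ℕ → K) (i : ℕ) : K := ∑ h ∈ Finset.range i, (θ h - θ (d - h))

lemma ss_zero (d : ℕ) (θ : ℕ → K) : ss d θ 0 = 0 := by simp [ss]

lemma ss_succ (d : ℕ) (θ : ℕ → K) (i : ℕ) : ss d θ (i + 1) = ss d θ i + (θ i - θ (d - i)) := by
  rw [ss, ss, Finset.sum_range_succ]

lemma ss_full (d : ℕ) (θ : ℕ → K) : ss d θ (d + 1) = 0 := by
  have h := Finset.sum_range_reflect (fun x => θ x) (d + 1)
  have h' : ∑ x ∈ Finset.range (d + 1), θ (d - x) = ∑ x ∈ Finset.range (d + 1), θ x := by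
    rw [← h]
    refine Finset.sum_congr rfl fun x _ => ?_
    rw [Nat.add_sub_cancel]
  rw [ss, Finset.sum_sub_distrib, h', sub_self]

lemma ss_symm (d : ℕ) (θ : ℕ → K) (i : ℕ) (hi : i ≤ d + 1) : ss d θ (d + 1 - i) = ss d θ i := by
  induction i with
  | zero => rw [Nat.sub_zero, ss_full, ss_zero]
  | succ i ih =>
      have h1 := ih (by omega)
      have h2 : d + 1 - i = (d + 1 - (i + 1)) + 1 := by omega
      rw [h2, ss_succ] at h1
      rw [ss_succ, ← h1]
      have h3 : d + 1 - (i + 1) = d - i := by omega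
      have h4 : d - (d - i) = i := by omega
      rw [h3, h4]; ring

/-- the differences `s_i - s_j` as a sum of differences with constant gap. -/
lemma ss_sub (d : ℕ) (θ : ℕ → K) (j n N : ℕ) (h : (j + n) + j + N = d) :
    ss d θ (j + n) - ss d θ j = ∑ k ∈ Finset.range n, (θ (j + k) - θ (j + k + (N + 1))) := by
  have h1 : ∀ m, ss d θ (j + m) - ss d θ j
      = ∑ k ∈ Finset.range m, (θ (j + k) - θ (d - (j + k))) := by
    intro m
    induction m with
    | zero => simp
    | succ m ih =>
        rw [Finset.sum_range_succ, ← ih, ← add_assoc, ss_succ]; ring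
  rw [h1, Finset.sum_sub_distrib, Finset.sum_sub_distrib]
  congr 1
  rw [← Finset.sum_range_reflect]
  refine Finset.sum_congr rfl fun k hk => ?_
  rw [Finset.mem_range] at hk
  congr 1
  omega

/-- The basic identity for differences. -/
lemma diff_identity (d : ℕ) (θ : ℕ → K) (b g : K)
    (hrec : ∀ i, i + 2 ≤ d → θ i - b * θ (i + 1) + θ (i + 2) = g) :
    ∀ m a a' : ℕ, a + m + 2 ≤ d → a' + m + 2 ≤ d →
      (θ (a + 1) - θ (a + m + 1)) * (θ a' - θ (a' + m + 2))
        = (θ a - θ (a + m + 2)) * (θ (a' + 1) - θ (a' + m + 1)) := by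
  intro m
  induction m using Nat.strong_induction_on with
  | _ m ih =>
      intro a a' ha ha'
      match m, ih, ha, ha' with
      | 0, _, _, _ => simp
      | 1, _, ha, ha' =>
          have e1 := hrec a (by omega)
          have e2 := hrec (a + 1) (by omega)
          have e3 := hrec a' (by omega)
          have e4 := hrec (a' + 1) (by omega)
          have f1 : θ a - θ (a + 1 + 2) = (b + 1) * (θ (a + 1) - θ (a + 2)) := by
            linear_combination e1 - e2
          have f2 : θ a' - θ (a' + 1 + 2) = (b + 1) * (θ (a' + 1) - θ (a' + 2)) := by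
            linear_combination e3 - e4
          rw [f1, f2]
          show (θ (a + 1) - θ (a + 2)) * _ = _ * (θ (a' + 1) - θ (a' + 2))
          ring
      | m + 2, ih, ha, ha' =>
          have e1 := hrec a (by omega)
          have e2 := hrec (a + m + 2) (by omega)
          have e3 := hrec a' (by omega)
          have e4 := hrec (a' + m + 2) (by omega)
          have f1 : θ a - θ (a + (m + 2) + 2)
              = b * (θ (a + 1) - θ (a + (m + 2) + 1)) - (θ (a + 2) - θ (a + m + 2)) := by
            linear_combination e1 - e2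
          have f2 : θ a' - θ (a' + (m + 2) + 2)
              = b * (θ (a' + 1) - θ (a' + (m + 2) + 1)) - (θ (a' + 2) - θ (a' + m + 2)) := by
            linear_combination e3 - e4
          have f3 := ih m (by omega) (a + 1) (a' + 1) (by omega) (by omega)
          have g1 : a + 1 + 1 = a + 2 := rfl
          have g2 : a + 1 + m + 1 = a + m + 2 := by omega
          have g3 : a' + 1 + m + 2 = a' + (m + 2) + 1 := by omega
          have g4 : a + 1 + m + 2 = a + (m + 2) + 1 := by omega
          have g5 : a' + 1 + 1 = a' + 2 := rfl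
          have g6 : a' + 1 + m + 1 = a' + m + 2 := by omega
          rw [g1, g2, g3, g4, g5, g6] at f3
          rw [f1, f2]
          linear_combination f3

/-- `(s_{i+1} - s_{j+1}) (θ_j - θ_{d-i+1}) = (s_i - s_j) (θ_{j+1} - θ_{d-i})`. -/
lemma ss_identity (d : ℕ) (θ : ℕ → K) (b g : K)
    (hrec : ∀ i, i + 2 ≤ d → θ i - b * θ (i + 1) + θ (i + 2) = g)
    (j n N : ℕ) (h : (j + n) + j + N + 1 = d) :
    (ss d θ (j + n + 1) - ss d θ (j + 1)) * (θ j - θ (j + (N + 2)))
      = (ss d θ (j + n) - ss d θ j) * (θ (j + 1) - θ (j + (N + 1))) := by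
  rw [ss_sub d θ j n (N + 1) (by omega)]
  rcases N with _ | N
  · -- `N = 0`
    rcases n with _ | n
    · simp
    · have h0 : ss d θ (j + (n + 1) + 1) = ss d θ (j + 1) := by
        rw [← ss_symm d θ (j + 1) (by omega)]
        congr 1
        omega
      rw [h0]; simp
  · have h1 : j + n + 1 = (j + 1) + n := by omega
    rw [h1, ss_sub d θ (j + 1) n N (by omega), Finset.sum_mul, Finset.sum_mul]
    refine Finset.sum_congr rfl fun k hk => ?_
    rw [Finset.mem_range] at hk
    have h2 := diff_identity d θ b g hrec (N + 1) (j + k) j (by omega) (by omega)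
    have g1 : j + 1 + k = j + k + 1 := by omega
    have g2 : j + 1 + k + (N + 1) = j + k + (N + 1) + 1 := by omega
    have g3 : j + (N + 1 + 2) = j + (N + 1) + 2 := by omega
    have g4 : j + k + (N + 1 + 1 + 1) = j + k + (N + 1) + 2 := by omega
    have g5 : j + (N + 1 + 1) = j + (N + 1) + 1 := by omega
    rw [g2, g3, g4, g5, g1]
    have g6 : j + k + (N + 1) + 1 = j + k + (N + 1) + 1 := rfl
    linear_combination h2

/-- The relation between the coefficients, lower half. -/
lemma rel_low (d : ℕ) (θ : ℕ → K) (b g : K)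
    (hinj : ∀ i j : ℕ, i ≤ d → j ≤ d → θ i = θ j → i = j)
    (hrec : ∀ i, i + 2 ≤ d → θ i - b * θ (i + 1) + θ (i + 2) = g) :
    ∀ i j : ℕ, j ≤ i → i + j + 1 ≤ d →
      ss d θ (i + 1) * cc d θ i j = ss d θ (j + 1) * cc d θ (i + 1) (j + 1) := by
  intro i
  induction i with
  | zero =>
      intro j hj _
      obtain rfl : j = 0 := by omega
      rw [cc_self, cc_self]
  | succ i ih =>
      intro j hj hd
      rcases Nat.lt_or_ge i j with hlt | hle
      · obtain rfl : j = i + 1 := by omega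
        rw [cc_self, cc_self]
      · have h1 := ih j hle (by omega)
        have hA : (ss d θ (i + 1) - ss d θ j) * cc d θ (i + 1) j
            = ss d θ (i + 1) * (θ j - θ (d - i)) * cc d θ i j := by
          rcases j with _ | j
          · rw [cc, ss_zero]; ring
          · have h2 := ih j (by omega) (by omega)
            have h3 : cc d θ (i + 1) (j + 1)
              = cc d θ i j + (θ (j + 1) - θ (d - i)) * cc d θ i (j + 1) := by rw [cc]
            linear_combination (ss d θ (i + 1)) * h3 + h2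
        have h3 : cc d θ (i + 1 + 1) (j + 1)
            = cc d θ (i + 1) j + (θ (j + 1) - θ (d - (i + 1))) * cc d θ (i + 1) (j + 1) := by
          rw [cc]
        obtain ⟨n, hn⟩ : ∃ n, i + 1 = j + n := ⟨i + 1 - j, by omega⟩
        obtain ⟨N, hN⟩ : ∃ N, (j + n) + j + N + 1 = d := ⟨d - 1 - (j + n) - j, by omega⟩
        have hI := ss_identity d θ b g hrec j n N hN
        have g1 : j + (N + 2) = d - i := by omega
        have g2 : j + (N + 1) = d - (i + 1) := by omega
        rw [g1, g2, ← hn] at hI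
        have hne : θ j - θ (d - i) ≠ 0 := by
          intro h0
          have := hinj j (d - i) (by omega) (by omega) (sub_eq_zero.mp h0)
          omega
        have hgoal : (θ j - θ (d - i)) * (ss d θ (i + 1 + 1) * cc d θ (i + 1) j)
            = (θ j - θ (d - i)) * (ss d θ (j + 1) * cc d θ (i + 1 + 1) (j + 1)) := by
          rw [h3]
          linear_combination (cc d θ (i + 1) j) * hI + (θ (j + 1) - θ (d - (i + 1))) * hA
            + (θ j - θ (d - i)) * (θ (j + 1) - θ (d - (i + 1))) * h1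
        exact mul_left_cancel₀ hne hgoal

/-- `τ` as a polynomial sequence -/
noncomputable def tauSeq (θ : ℕ → K) : Polynomial.Sequence K where
  elems' := tau θ
  degree_eq' := by
    intro i
    have h1 : (tau θ i).Monic := monic_prod_of_monic _ _ fun h _ => monic_X_sub_C _
    rw [degree_eq_natDegree h1.ne_zero]
    have h2 : (tau θ i).natDegree = i := by
      rw [tau, natDegree_prod_of_monic _ _ (fun h _ => monic_X_sub_C _)]
      simp
    rw [h2]

lemma tau_monic (θ : ℕ → K) (i : ℕ) : (tau θ i).Monic :=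
  monic_prod_of_monic _ _ fun h _ => monic_X_sub_C _

lemma tau_linInd (θ : ℕ → K) : LinearIndependent K (tau θ) :=
  (tauSeq θ).linearIndependent

/-- the basis of all the polynomials given by `τ` -/
noncomputable def tauBasis (θ : ℕ → K) : Module.Basis ℕ K K[X] :=
  (tauSeq θ).basis (fun i => by
    have : (tauSeq θ i).leadingCoeff = 1 := tau_monic θ i
    rw [this]; exact isUnit_one)

lemma tauBasis_apply (θ : ℕ → K) (i : ℕ) : tauBasis θ i = tau θ i := by
  have h := (tauSeq θ).basis_eq_self (hCoeff := fun i => by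
    have : (tauSeq θ i).leadingCoeff = 1 := tau_monic θ i
    rw [this]; exact isUnit_one) i
  exact h

lemma rho_full (d : ℕ) (θ : ℕ → K) : rho d θ (d + 1) = tau θ (d + 1) := by
  rw [rho, tau, ← Finset.prod_range_reflect]
  refine Finset.prod_congr rfl fun x hx => ?_
  rw [Finset.mem_range] at hx
  have : d - (d + 1 - 1 - x) = x := by omega
  rw [this]

lemma cc_full (d : ℕ) (θ : ℕ → K) (k : ℕ) (hk : k ≤ d) : cc d θ (d + 1) k = 0 := by
  have h1 := rho_eq_sum d θ (d + 1)
  rw [rho_full, Finset.sum_range_succ, cc_self, C_1, one_mul] at h1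
  have h2 : ∑ j ∈ Finset.range (d + 1), cc d θ (d + 1) j • tau θ j = 0 := by
    have h3 : ∑ j ∈ Finset.range (d + 1), C (cc d θ (d + 1) j) * tau θ j = 0 := by
      linear_combination -h1
    rw [← h3]
    refine Finset.sum_congr rfl fun j _ => ?_
    rw [smul_eq_C_mul]
  exact linearIndependent_iff'.mp (tau_linInd θ) _ _ h2 k (Finset.mem_range.mpr (by omega))

lemma cc_symm (d : ℕ) (θ : ℕ → K) :
    ∀ i j : ℕ, i ≤ d → j ≤ d → cc d θ i j = cc d θ (d - j) (d - i) := by
  intro i
  induction i with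
  | zero =>
      intro j _ hj
      rcases j with _ | j
      · rw [Nat.sub_zero, cc_self, cc_self]
      · rw [cc_eq_zero d θ 0 (j + 1) (by omega), cc_eq_zero d θ _ _ (by omega)]
  | succ i ih =>
      intro j hi hj
      rcases j with _ | j
      · have h1 : cc d θ (i + 1) 0 = (θ 0 - θ (d - i)) * cc d θ i 0 := by rw [cc]
        have h2 := ih 0 (by omega) (by omega)
        rw [Nat.sub_zero] at h2 ⊢
        have h3 := cc_full d θ (d - i) (by omega)
        obtain ⟨k, hk⟩ : ∃ k, d - i = k + 1 := ⟨d - i - 1, by omega⟩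
        rw [hk, cc, Nat.sub_self, ← hk] at h3
        have h4 : d - (i + 1) = k := by omega
        rw [h1, h2, h4]
        linear_combination -h3
      · have h1 : cc d θ (i + 1) (j + 1)
            = cc d θ i j + (θ (j + 1) - θ (d - i)) * cc d θ i (j + 1) := by rw [cc]
        have h2 := ih j (by omega) (by omega)
        have h3 := ih (j + 1) (by omega) hj
        obtain ⟨p, hp⟩ : ∃ p, d - j = p + 1 := ⟨d - j - 1, by omega⟩
        obtain ⟨q, hq⟩ : ∃ q, d - i = q + 1 := ⟨d - i - 1, by omega⟩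
        have h4 : d - (j + 1) = p := by omega
        have h5 : d - (i + 1) = q := by omega
        have h6 : d - p = j + 1 := by omega
        have h7 : cc d θ (p + 1) (q + 1)
            = cc d θ p q + (θ (q + 1) - θ (d - p)) * cc d θ p (q + 1) := by rw [cc]
        rw [h4, h5]
        rw [h4, hq] at h3
        rw [hp, hq] at h2
        rw [h6] at h7
        rw [h1, hq, h2, h3]
        linear_combination h7

/-- The relation between the coefficients. -/
lemma rel (d : ℕ) (θ : ℕ → K) (b g : K)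
    (hinj : ∀ i j : ℕ, i ≤ d → j ≤ d → θ i = θ j → i = j)
    (hrec : ∀ i, i + 2 ≤ d → θ i - b * θ (i + 1) + θ (i + 2) = g)
    (i j : ℕ) (hi : i + 1 ≤ d) :
      ss d θ (i + 1) * cc d θ i j = ss d θ (j + 1) * cc d θ (i + 1) (j + 1) := by
  rcases Nat.lt_or_ge i j with hlt | hle
  · rw [cc_eq_zero d θ i j hlt, cc_eq_zero d θ (i + 1) (j + 1) (by omega)]; simp
  · rcases Nat.lt_or_ge d (i + j + 1) with h | h
    · have h1 := rel_low d θ b g hinj hrec (d - j - 1) (d - i - 1) (by omega) (by omega)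
      have g1 : d - j - 1 + 1 = d - j := by omega
      have g2 : d - i - 1 + 1 = d - i := by omega
      rw [g1, g2, ← cc_symm d θ i j (by omega) (by omega)] at h1
      have g3 : d - j - 1 = d - (j + 1) := by omega
      have g4 : d - i - 1 = d - (i + 1) := by omega
      rw [g3, g4, ← cc_symm d θ (i + 1) (j + 1) (by omega) (by omega)] at h1
      have g5 : d - j = d + 1 - (j + 1) := by omega
      have g6 : d - i = d + 1 - (i + 1) := by omega
      rw [g5, g6, ss_symm d θ (j + 1) (by omega), ss_symm d θ (i + 1) (by omega)] at h1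
      exact h1.symm
    · exact rel_low d θ b g hinj hrec i j hle h

/-- the lowering map on all polynomials -/
noncomputable def Psi (d : ℕ) (θ : ℕ → K) : K[X] →ₗ[K] K[X] :=
  (tauBasis θ).constr K (fun i => ss d θ i • tau θ (i - 1))

lemma Psi_tau (d : ℕ) (θ : ℕ → K) (i : ℕ) : Psi d θ (tau θ i) = ss d θ i • tau θ (i - 1) := by
  rw [Psi, ← tauBasis_apply, Module.Basis.constr_basis]

lemma Psi_rho (d : ℕ) (θ : ℕ → K) (b g : K)
    (hinj : ∀ i j : ℕ, i ≤ d → j ≤ d → θ i = θ j → i = j)
    (hrec : ∀ i, i + 2 ≤ d → θ i - b * θ (i + 1) + θ (i + 2) = g)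
    (i : ℕ) (hi : i + 1 ≤ d) :
    Psi d θ (rho d θ (i + 1)) = ss d θ (i + 1) • rho d θ i := by
  rw [rho_eq_sum, rho_eq_sum, map_sum, Finset.sum_range_succ']
  have h0 : Psi d θ (C (cc d θ (i + 1) 0) * tau θ 0) = 0 := by
    rw [← smul_eq_C_mul, map_smul, Psi_tau, ss_zero, zero_smul, smul_zero]
  rw [h0, add_zero, Finset.smul_sum]
  refine Finset.sum_congr rfl fun j _ => ?_
  rw [← smul_eq_C_mul, map_smul, Psi_tau, Nat.add_sub_cancel, ← smul_eq_C_mul, smul_smul,
    smul_smul, rel d θ b g hinj hrec i j hi, mul_comm]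

lemma Psi_mem (d : ℕ) (θ : ℕ → K) (p : K[X]) (hp : p ∈ degreeLE K (d : WithBot ℕ)) :
    Psi d θ p ∈ degreeLE K (d : WithBot ℕ) := by
  have h1 := (tauSeq θ).span_degreeLE (m := d) (fun i _ => by
    have : (tauSeq θ i).leadingCoeff = 1 := tau_monic θ i
    rw [this]; exact isUnit_one)
  rw [← h1] at hp
  induction hp using Submodule.span_induction with
  | mem x hx =>
      obtain ⟨i, hi, rfl⟩ := hx
      have h2 : Psi d θ (tauSeq θ i) = ss d θ i • tau θ (i - 1) := Psi_tau d θ i
      rw [h2]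
      refine Submodule.smul_mem _ _ ?_
      rw [mem_degreeLE]
      have h3 : (tau θ (i - 1)).degree = ((i - 1 : ℕ) : WithBot ℕ) := (tauSeq θ).degree_eq (i - 1)
      rw [h3]
      have hi' : i ≤ d := hi
      exact_mod_cast (by omega : i - 1 ≤ d)
  | zero => rw [map_zero]; exact Submodule.zero_mem _
  | add x y _ _ hx hy => rw [map_add]; exact Submodule.add_mem _ hx hy
  | smul a x _ hx => rw [map_smul]; exact Submodule.smul_mem _ _ hx

/-- From (*) to the three term recurrence. -/
lemma exists_rec (d : ℕ) (θ : ℕ → K)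
    (hinj : ∀ i j : ℕ, i ≤ d → j ≤ d → θ i = θ j → i = j)
    (hstar : ∃ c : K, ∀ i : ℕ, 2 ≤ i → i + 1 ≤ d →
      (θ (i - 2) - θ (i + 1)) * (θ (i - 1) - θ i)⁻¹ = c) :
    ∃ b g : K, ∀ i, i + 2 ≤ d → θ i - b * θ (i + 1) + θ (i + 2) = g := by
  obtain ⟨c, hc⟩ := hstar
  refine ⟨c - 1, θ 0 - (c - 1) * θ 1 + θ 2, ?_⟩
  intro i
  induction i with
  | zero => intro _; rfl
  | succ i ih =>
      intro hi
      have h1 := ih (by omega)
      have h2 := hc (i + 2) (by omega) (by omega)
      have g1 : i + 2 - 2 = i := by omega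
      have g2 : i + 2 - 1 = i + 1 := by omega
      rw [g1, g2] at h2
      have hne : θ (i + 1) - θ (i + 2) ≠ 0 := by
        intro h0
        have := hinj (i + 1) (i + 2) (by omega) (by omega) (sub_eq_zero.mp h0)
        omega
      have h3 : θ i - θ (i + 2 + 1) = c * (θ (i + 1) - θ (i + 2)) := by
        rw [← h2]; field_simp
      show θ (i + 1) - (c - 1) * θ (i + 2) + θ (i + 2 + 1) = _
      linear_combination h1 - h3

/-- **Main theorem.**  For every field `K`, every `d ≥ 1` and pairwise distinct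
`θ₀, …, θ_d` satisfying (*), there is a nonzero lowering map on the space of polynomials of degree
at most `d`. -/
theorem result {K : Type*} [Field K] (d : ℕ) (hd : 1 ≤ d) (θ : ℕ → K)
    (hinj : ∀ i j : ℕ, i ≤ d → j ≤ d → θ i = θ j → i = j)
    (hstar : ∃ c : K, ∀ i : ℕ, 2 ≤ i → i + 1 ≤ d →
      (θ (i - 2) - θ (i + 1)) * (θ (i - 1) - θ i)⁻¹ = c) :
    ∃ Ψ : degreeLE K (d : WithBot ℕ) →ₗ[K] degreeLE K (d : WithBot ℕ),
      IsLowering d θ Ψ ∧ Ψ ≠ 0 := by
  obtain ⟨b, g, hrec⟩ := exists_rec d θ hinj hstar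
  refine ⟨(Psi d θ).restrict (Psi_mem d θ), ⟨?_, ?_, ?_⟩, ?_⟩
  · intro p hp
    apply Subtype.ext
    rw [LinearMap.coe_restrict_apply, hp, Psi_tau, ss_zero, zero_smul]; rfl
  · intro p hp
    apply Subtype.ext
    have h0 : rho d θ 0 = tau θ 0 := by simp [rho, tau]
    rw [LinearMap.coe_restrict_apply, hp, h0, Psi_tau, ss_zero, zero_smul]; rfl
  · intro i h1 h2
    constructor
    · intro p hp
      rw [LinearMap.coe_restrict_apply, hp, Psi_tau]
      exact Submodule.smul_mem _ _ (Submodule.mem_span_singleton_self _)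
    · intro p hp
      obtain ⟨i, rfl⟩ : ∃ k, i = k + 1 := ⟨i - 1, by omega⟩
      rw [LinearMap.coe_restrict_apply, hp, Psi_rho d θ b g hinj hrec i h2, Nat.add_sub_cancel]
      exact Submodule.smul_mem _ _ (Submodule.mem_span_singleton_self _)
  · intro h0
    have hm : tau θ 1 ∈ degreeLE K (d : WithBot ℕ) := by
      rw [mem_degreeLE]
      have h3 : (tau θ 1).degree = ((1 : ℕ) : WithBot ℕ) := (tauSeq θ).degree_eq 1
      rw [h3]
      exact_mod_cast hd
    have h1 : (((Psi d θ).restrict (Psi_mem d θ)) ⟨tau θ 1, hm⟩ : K[X]) = 0 := by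
      rw [h0]; rfl
    rw [LinearMap.coe_restrict_apply, Psi_tau] at h1
    have h2 : tau θ (1 - 1) = 1 := by simp [tau]
    rw [h2, ss_succ, ss_zero, zero_add, Nat.sub_zero, smul_eq_C_mul, mul_one, C_eq_zero] at h1
    have := hinj 0 d (by omega) le_rfl (sub_eq_zero.mp h1)
    omega

end Pool.Agent.Results.MP_87e037_al.LoweringMap
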